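import Mathlib
import Pool.Agent.Y679.Fz.Cnt

/-!
# Few congruences with a given curve among the curves ordered by the conductor

All elliptic curves over `ℚ` with full rational 2-torsion, ordered by the conductor, with no bound on
the heights: the number of those of conductor at most `N` is of order `N ^ (2/3)`. For EVERY elliptic
curve `E₀` over `ℚ` at most `C R ^ (1/12) N ^ (2/3 - ν)` of them have the same `p`-division field as
`E₀` for some prime `p ≥ 13`, in particular at most so many are congruent to `E₀` modulo some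
`p ≥ 13`; `R` is the product of the primes `l ≥ 5` dividing the denominator of `j(E₀)`, and `ν`, `C` do
not depend on `E₀`, `p` and `N`.

Proof. By the local theorem of helper673 (`Pool.Agent.Y673.FM.loc`) all primes `l ≥ 5` not dividing the
denominator of `j(E₀)` at which `E` has multiplicative reduction divide the discriminant of `E` to a
power divisible by `p`. So the minimal discriminant of `E` is at least of the order of `N_E³ / R`. By
the theorem on `H / N²` (`Pool.Agent.Y679.Jl.H_le`) this is rare.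
-/

set_option autoImplicit false

namespace Pool.Agent.Results.MP_f5d5f4_nt.OrderedByConductor

open Filter Topology
open scoped Classical

/-- the curve `y² = x³ + A x + B` over `ℚ` -/
def curve (A B : ℚ) : WeierstrassCurve ℚ := ⟨0, 0, 0, A, B⟩

/-- the group of its points over the algebraic closure of `ℚ` -/
abbrev Points (A B : ℚ) : Type := ((curve A B).baseChange (AlgebraicClosure ℚ)).toAffine.Point

/-- the action of an automorphism `σ` of the algebraic closure on the points -/
noncomputable def galois (A B : ℚ) (σ : AlgebraicClosure ℚ ≃ₐ[ℚ] AlgebraicClosure ℚ) :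
    Points A B →+ Points A B :=
  WeierstrassCurve.Affine.Point.map (σ : AlgebraicClosure ℚ →ₐ[ℚ] AlgebraicClosure ℚ)

/-- The curves `y² = x³ + A x + B` and `y² = x³ + A' x + B'` have the same `p`-division field: an
automorphism fixes all points killed by `p` of the first if and only if it fixes all points killed by
`p` of the second. This holds if the groups of points killed by `p` are isomorphic as Galois modules
(`p`-congruent curves). -/
def SameDivisionField (p : ℕ) (A B A' B' : ℚ) : Prop :=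
  ∀ σ : AlgebraicClosure ℚ ≃ₐ[ℚ] AlgebraicClosure ℚ,
    (∀ P : Points A B, p • P = 0 → galois A B σ P = P) ↔
      (∀ P : Points A' B', p • P = 0 → galois A' B' σ P = P)

/-- The curves are `p`-congruent: some map between the groups of points restricts to a bijective
additive map of the points killed by `p` which commutes with the Galois group. -/
def Congruent (p : ℕ) (A B A' B' : ℚ) : Prop :=
  ∃ f : Points A B → Points A' B', (∀ P Q, p • P = 0 → p • Q = 0 → f (P + Q) = f P + f Q) ∧
    Set.BijOn f {P | p • P = 0} {Q | p • Q = 0} ∧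
    ∀ (σ : AlgebraicClosure ℚ ≃ₐ[ℚ] AlgebraicClosure ℚ) (P : Points A B), p • P = 0 →
      f (galois A B σ P) = galois A' B' σ (f P)

/-- the invariant of `y² = x³ + A x + B` -/
def jInvariant (A B : ℚ) : ℚ := 6912 * A ^ 3 / (4 * A ^ 3 + 27 * B ^ 2)

/-- the product of the primes `l ≥ 5` dividing the denominator of the invariant, the primes `l ≥ 5` at
which `y² = x³ + A x + B` has potentially multiplicative reduction -/
def badProduct (A B : ℚ) : ℕ :=
  ∏ l ∈ (jInvariant A B).den.primeFactors.filter (fun l => 5 ≤ l), l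

/-- the discriminant of `x³ - a x - b` -/
def Disc (a b : ℤ) : ℤ := 4 * a ^ 3 - 27 * b ^ 2

/-- `y² = x³ - a x - b` is an elliptic curve and `|Disc|` is least among the integral models
`y² = x³ - a' x - b'`, `a' = u⁴ a`, `b' = u⁶ b`, `u ∈ ℚ^×`. Every elliptic curve over `ℚ` has exactly
one such model. -/
def IsMinimal (a b : ℤ) : Prop :=
  Disc a b ≠ 0 ∧ ∀ (u : ℚ) (a' b' : ℤ), u ≠ 0 → (a' : ℚ) = u ^ 4 * a → (b' : ℚ) = u ^ 6 * b →
    |Disc a b| ≤ |Disc a' b'|

/-- all 2-torsion points are rational: `x³ - a x - b` splits over `ℚ` -/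
def FullTwoTorsion (a b : ℤ) : Prop :=
  ∃ r₁ r₂ r₃ : ℚ, ∀ x : ℚ, x ^ 3 - a * x - b = (x - r₁) * (x - r₂) * (x - r₃)

/-- the prime-to-6 part of the conductor of a minimal model: the product over the primes `p ≥ 5`
dividing `Disc` of `p` (multiplicative reduction: `p ∤ a`) or `p²` (additive reduction: `p ∣ a`) -/
def Cond6 (a b : ℤ) : ℕ :=
  ∏ p ∈ (Disc a b).natAbs.primeFactors.filter (fun p => 5 ≤ p), if (p : ℤ) ∣ a then p ^ 2 else p

/-- the admissible factors: functions with values between `1` and `2 ^ 8 * 3 ^ 5`, for instance the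
part of the conductor composed of the primes 2 and 3, or `f = 1` -/
def Factor (f : ℤ × ℤ → ℕ) : Prop := ∀ q, 1 ≤ f q ∧ f q ≤ 2 ^ 8 * 3 ^ 5

/-- the minimal models `y² = x³ - a x - b`, `q = (a, b)`, with full 2-torsion and `f * Cond6 ≤ N` (for
a suitable factor `f`: the conductor is at most `N`), of all heights -/
def Curves (f : ℤ × ℤ → ℕ) (N : ℝ) : Set (ℤ × ℤ) :=
  {q | IsMinimal q.1 q.2 ∧ FullTwoTorsion q.1 q.2 ∧ ((f q * Cond6 q.1 q.2 : ℕ) : ℝ) ≤ N}

/-- those having the same `p`-division field as `y² = x³ + A₀ x + B₀` for some prime `p ≥ 13` -/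
def Companions (f : ℤ × ℤ → ℕ) (A₀ B₀ : ℚ) (N : ℝ) : Set (ℤ × ℤ) :=
  {q | q ∈ Curves f N ∧ ∃ p : ℕ, p.Prime ∧ 13 ≤ p ∧
    SameDivisionField p (-(q.1 : ℚ)) (-(q.2 : ℚ)) A₀ B₀}

/-- **Theorem.** Order all elliptic curves over `ℚ` with full rational 2-torsion by the conductor
(`f * N₆`, where `f` is an arbitrary factor as in `Factor`), with no bound on the heights. Their number
is finite for all `N` and between `c₁ N ^ (2/3)` and `C₁ N ^ (2/3)` for large `N`. There are `ν > 0`
and `C` such that for EVERY elliptic curve `E₀ : y² = x³ + A₀ x + B₀` over `ℚ` and all `N ≥ 1` at most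
`C R ^ (1/12) N ^ (2/3 - ν)` of them have the same `p`-division field as `E₀` for some prime
`p ≥ 13`, where `R = badProduct A₀ B₀`; `p`-congruent curves have the same `p`-division field. -/
theorem result :
    (∃ c₁ C₁ : ℝ, 0 < c₁ ∧ ∀ f : ℤ × ℤ → ℕ, Factor f → (∀ N : ℝ, 1 ≤ N → (Curves f N).Finite) ∧
      ∀ᶠ N : ℝ in atTop, c₁ * N ^ ((2 : ℝ) / 3) ≤ ((Curves f N).ncard : ℝ) ∧
        ((Curves f N).ncard : ℝ) ≤ C₁ * N ^ ((2 : ℝ) / 3)) ∧
    (∃ ν C : ℝ, 0 < ν ∧ 0 < C ∧ ∀ f : ℤ × ℤ → ℕ, Factor f → ∀ A₀ B₀ : ℚ,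
      4 * A₀ ^ 3 + 27 * B₀ ^ 2 ≠ 0 → ∀ N : ℝ, 1 ≤ N →
        ((Companions f A₀ B₀ N).ncard : ℝ) ≤
          C * (badProduct A₀ B₀ : ℝ) ^ ((1 : ℝ) / 12) * N ^ (2 / 3 - ν)) ∧
    ∀ (p : ℕ) (A B A' B' : ℚ), Congruent p A B A' B' → SameDivisionField p A B A' B' := by
  have hlam : ∀ f : ℤ × ℤ → ℕ, Factor f → ∀ q : ℤ × ℤ, IsMinimal q.1 q.2 →
      FullTwoTorsion q.1 q.2 → 1 ≤ f q ∧ f q ≤ 62208 :=
    fun f hf q _ _ => ⟨(hf q).1, (hf q).2.trans (by norm_num)⟩
  have hfin : ∀ f : ℤ × ℤ → ℕ, Factor f → ∀ N : ℝ, 1 ≤ N → (Curves f N).Finite :=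
    fun f hf N hN => Pool.Agent.Y679.Par.Md_fin (fun q a b => (hlam f hf q a b).1) hN
  obtain ⟨c₀, C1, hc₀, hC1, hg⟩ := Pool.Agent.Y679.Fh.Hg_ge
  obtain ⟨C2, hC2, hmd⟩ := Pool.Agent.Y679.Fh.Md_up
  have hcnt : ∀ f : ℤ × ℤ → ℕ, Factor f → ∀ N : ℝ, max C1 1 ≤ N →
      c₀ * N ^ ((2 : ℝ) / 3) ≤ ((Curves f N).ncard : ℝ) := by
    intro f hf N hN
    have hN1 : 1 ≤ N := (le_max_right _ _).trans hN
    have h1 := hg f (hlam f hf) N 0 le_rfl (by
      rw [mul_zero, Real.exp_zero, mul_one]
      exact (le_max_left _ _).trans hN)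
    rw [mul_zero, neg_zero, Real.exp_zero, one_mul] at h1
    exact h1.trans (Nat.cast_le.2 (Set.ncard_le_ncard (fun q hq => hq.1) (hfin f hf N hN1)))
  refine ⟨⟨c₀, C2, hc₀, fun f hf => ⟨hfin f hf, ?_⟩⟩, ?_, ?_⟩
  · filter_upwards [eventually_ge_atTop (max C1 1)] with N hN
    exact ⟨hcnt f hf N hN, hmd f (fun q a b => (hlam f hf q a b).1) N
      ((le_max_right _ _).trans hN)⟩
  · obtain ⟨ν, C, hν, hC, h⟩ := Pool.Agent.Y679.Fz.Cp_le
    exact ⟨ν, C, hν, hC, fun f hf A₀ B₀ hD N hN =>
      h f (fun q a b => (hlam f hf q a b).1) A₀ B₀ hD N hN⟩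
  · rintro p A B A' B' ⟨f, -, h1, h2⟩ σ
    constructor
    · intro h Q hQ
      obtain ⟨P, hP, rfl⟩ := h1.surjOn (show Q ∈ {Q | p • Q = 0} from hQ)
      rw [← h2 σ P hP, h P hP]
    · intro h P hP
      have h3 : p • galois A B σ P = 0 := by
        rw [← map_nsmul]
        have : p • P = 0 := hP
        rw [this, map_zero]
      refine h1.injOn (show galois A B σ P ∈ {P | p • P = 0} from h3)
        (show P ∈ {P | p • P = 0} from hP) ?_
      rw [h2 σ P hP]
      exact h _ (h1.mapsTo (show P ∈ {P | p • P = 0} from hP))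

end Pool.Agent.Results.MP_f5d5f4_nt.OrderedByConductor
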