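import Pool.Agent.Y673.FM.Fam

/-!
# MP_f5d5f4_nt: few congruences in one-parameter families, uniformly in the curve and in the field

Let `K` be a number field and `j = F/G` a rational function over `K`, `F`, `G` coprime, with at least
two different poles on the projective line over `K̄` (two different roots of `G`, or one root and a pole
at infinity; for example `K = ℚ` and the family with full level two structure, `j` having poles at
`0`, `1`, `∞`).  Let `n ≥ 1` and `ε > 0`.  There are `N`, `C` such that for EVERY extension `L` of `K` of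
degree at most `n` over `ℚ`, EVERY elliptic curve `E₀` over `L` and every `X ≥ 1`: among ALL `t ∈ L` of
(relative, multiplicative) height at most `X` (there are about `X²` of them) there are at most
`C (X H(j(E₀))) ^ ε` for which some elliptic curve `E` over `L` with `j(E) = F(t)/G(t)` and some prime
`p ≥ N` exist such that `E` and `E₀` have the same `p`-division field, in particular such that
`E[p]` and `E₀[p]` are isomorphic.

Proof.  The main point is a local theorem (`Pool.Agent.Y673.FM.loc`): if `L(E[p]) = L(E₀[p])`, `p` is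
large compared with `[L : ℚ]`, and `v` is a place of `L` not above `6`, possibly above `p`, with
`v(j(E)) < 0 ≤ v(j(E₀))`, then `p` divides `v(j(E))`.  For `v ∤ p` the inertia group of the field over
which `E₀` has good reduction acts trivially; for `v ∣ p` one compares the ramification of the points
of `E₀[p]` in the kernel of the reduction with that of the points of `E[p]` over the node (a power of a
uniformizer being a `p`-th power times a unit), using a product formula for the `p`-torsion.  If `π`, `ρ`
are two poles of `j`, then the valuations of `(t - π)/(t - ρ)` (or of `t - π` if `ρ = ∞`) at all places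
of `L(π, ρ)` outside the poles of `j(E₀)` and a set of places of bounded weight are divisible by `p`.
The number of such elements of bounded height is bounded uniformly in the field (Rankin's method, with
the uniform counts of ideals and units of `W222.UABC`).
-/

set_option autoImplicit false

open WeierstrassCurve NumberField Polynomial
open scoped Classical

namespace Pool.Agent.Results.MP_f5d5f4_nt.UniformInFamilies

section
variable {L : Type} [Field L]

/-- The curve `y² = x³ + Ax + B` over `L`. -/
def curve (A B : L) : WeierstrassCurve L := ⟨0, 0, 0, A, B⟩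

/-- The group of its points over the algebraic closure of `L`. -/
abbrev Points (A B : L) : Type := ((curve A B).baseChange (AlgebraicClosure L)).toAffine.Point

/-- The action of an `L`-automorphism `σ` of the algebraic closure on the points. -/
noncomputable def galois (A B : L) (σ : AlgebraicClosure L ≃ₐ[L] AlgebraicClosure L) :
    Points A B →+ Points A B :=
  WeierstrassCurve.Affine.Point.map (σ : AlgebraicClosure L →ₐ[L] AlgebraicClosure L)

/-- The curves `y² = x³ + Ax + B` and `y² = x³ + A'x + B'` have the same `p`-division field: an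
automorphism fixes all points killed by `p` of the first if and only if it fixes all points killed by
`p` of the second.  This holds if there is an isomorphism (or only a bijective map) between the groups
of points killed by `p` which commutes with the Galois action. -/
def SameDivisionField (p : ℕ) (A B A' B' : L) : Prop :=
  ∀ σ : AlgebraicClosure L ≃ₐ[L] AlgebraicClosure L,
    (∀ P : Points A B, p • P = 0 → galois A B σ P = P) ↔
      (∀ P : Points A' B', p • P = 0 → galois A' B' σ P = P)

/-- The invariant of `y² = x³ + Ax + B`. -/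
noncomputable def jInvariant (A B : L) : L := 6912 * A ^ 3 / (4 * A ^ 3 + 27 * B ^ 2)

/-- `j` is the invariant of an elliptic curve over `L` which for some prime `p ≥ N` has the same
`p`-division field as `y² = x³ + A₀x + B₀`. -/
def Companion (N : ℕ) (A₀ B₀ : L) (j : L) : Prop :=
  ∃ A B : L, 4 * A ^ 3 + 27 * B ^ 2 ≠ 0 ∧ jInvariant A B = j ∧
    ∃ p : ℕ, p.Prime ∧ N ≤ p ∧ SameDivisionField p A B A₀ B₀

end

/-- The parameters `t ∈ L` of height at most `X`, `G(t) ≠ 0`, such that `F(t)/G(t)` is the invariant of
an elliptic curve over `L` which for some prime `p ≥ N` has the same `p`-division field as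
`y² = x³ + A₀x + B₀`. -/
def Exceptional (K : Type) [Field K] (F G : K[X]) (L : Type) [Field L] [NumberField L]
    [Algebra K L] (N : ℕ) (A₀ B₀ : L) (X : ℝ) : Set L :=
  {t | Height.mulHeight₁ t ≤ X ∧ (G.map (algebraMap K L)).eval t ≠ 0 ∧
    Companion N A₀ B₀ ((F.map (algebraMap K L)).eval t / (G.map (algebraMap K L)).eval t)}

/-- `F/G` has at least two different poles on the projective line over the algebraic closure. -/
def TwoPoles (K : Type) [Field K] (F G : K[X]) : Prop :=
  (∃ x y : AlgebraicClosure K, x ≠ y ∧ aeval x G = 0 ∧ aeval y G = 0) ∨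
    (0 < G.natDegree ∧ G.natDegree < F.natDegree)

/-- **Few congruences in families, uniformly over all curves `E₀` and all fields of bounded degree.** -/
theorem result (K : Type) [Field K] [NumberField K] (F G : K[X]) (hFG : IsCoprime F G)
    (hG : G ≠ 0) (hpoles : TwoPoles K F G) (n : ℕ) (ε : ℝ) (hε : 0 < ε) :
    ∃ (N : ℕ) (C : ℝ), ∀ (L : Type) [Field L] [NumberField L] [Algebra K L],
      Module.finrank ℚ L ≤ n → ∀ A₀ B₀ : L, 4 * A₀ ^ 3 + 27 * B₀ ^ 2 ≠ 0 → ∀ X : ℝ, 1 ≤ X →
        (Exceptional K F G L N A₀ B₀ X).Finite ∧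
        ((Exceptional K F G L N A₀ B₀ X).ncard : ℝ) ≤
          C * (X * Height.mulHeight₁ (jInvariant A₀ B₀)) ^ ε := by
  have key : ∀ (L : Type) [Field L] [NumberField L] (N : ℕ) (A₀ B₀ j : L),
      Module.finrank ℚ L ≤ n → 4 * A₀ ^ 3 + 27 * B₀ ^ 2 ≠ 0 → 13 + 8 * n ≤ N →
      Companion N A₀ B₀ j → Pool.Agent.Y673.DK.PJ L 6 (jInvariant A₀ B₀) N j := by
    rintro L _ _ N A₀ B₀ j hL h0 hN ⟨A, B, h1, rfl, p, h3, h4, h5⟩
    exact Pool.Agent.Y673.FM.pj_of hL hN A B A₀ B₀ h1 h0 h3 h4 h5
  rcases hpoles with ⟨x, y, hxy, hx, hy⟩ | ⟨h1, h2⟩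
  · obtain ⟨N, C, -, h⟩ := Pool.Agent.Y673.DK.rational_twoJ K 6 (by norm_num) F G hFG hG x y hxy
      hx hy n hε
    refine ⟨max N (13 + 8 * n), C, fun L _ _ _ hL A₀ B₀ h0 X hX => ?_⟩
    refine Pool.Agent.Y673.Cnt.ncard_le_of _ _ fun E hE =>
      h L hL (jInvariant A₀ B₀) X hX E fun t ht => ?_
    obtain ⟨h3, h4, h5⟩ := hE (Finset.mem_coe.2 ht)
    obtain ⟨p, h6, h7, h8⟩ := key L _ A₀ B₀ _ hL h0 (le_max_right _ _) h5
    exact ⟨h3, h4, p, h6, (le_max_left _ _).trans h7, h8⟩
  · obtain ⟨N, C, -, h⟩ := Pool.Agent.Y673.DK.rational_infJ K 6 (by norm_num) F G hFG h1 h2 n hε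
    refine ⟨max N (13 + 8 * n), C, fun L _ _ _ hL A₀ B₀ h0 X hX => ?_⟩
    refine Pool.Agent.Y673.Cnt.ncard_le_of _ _ fun E hE =>
      h L hL (jInvariant A₀ B₀) X hX E fun t ht => ?_
    obtain ⟨h3, h4, h5⟩ := hE (Finset.mem_coe.2 ht)
    obtain ⟨p, h6, h7, h8⟩ := key L _ A₀ B₀ _ hL h0 (le_max_right _ _) h5
    exact ⟨h3, h4, p, h6, (le_max_left _ _).trans h7, h8⟩

end Pool.Agent.Results.MP_f5d5f4_nt.UniformInFamilies
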